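import Mathlib

set_option autoImplicit false

namespace Pool.Agent.Results.MP_aad82b_nt.LastDigitNine

theorem result : ∃ n : ℕ, 2 ≤ n ∧ n % 10 = 9 ∧ 2 ^ (n - 2) ≡ 1 [MOD n] := by
  refine ⟨1210344599, by norm_num, by norm_num, ?_⟩
  have h : (2 : ZMod 1210344599) ^ (1210344599 - 2) = 1 := by
    norm_num only
    reduce_mod_char
  have := (ZMod.natCast_eq_natCast_iff (2 ^ (1210344599 - 2)) 1 1210344599).1 (by
    rw [Nat.cast_pow, Nat.cast_one]; exact h)
  exact this

end Pool.Agent.Results.MP_aad82b_nt.LastDigitNine
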